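import Pool.Agent.H14.AVS.S1

/-!
# AVS, module TOR: translation of a point of the covering by a point of the curve
-/

set_option autoImplicit false

namespace Pool.AVS

open Polynomial Matrix Pool.AVR

namespace TOR

variable {K : Type} [Field K]

theorem bil_eq (B : Matrix (Fin 3) (Fin 3) K) (u v : Fin 3 → K) : bil B u v =
    u 0 * (B 0 0 * v 0 + B 0 1 * v 1 + B 0 2 * v 2) +
    u 1 * (B 1 0 * v 0 + B 1 1 * v 1 + B 1 2 * v 2) +
    u 2 * (B 2 0 * v 0 + B 2 1 * v 1 + B 2 2 * v 2) := by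
  unfold bil
  simp [dotProduct, Matrix.mulVec, Fin.sum_univ_three]

theorem bilA (u v : Fin 3 → K) : bil (AA K) u v = u 0 * v 2 + u 1 * v 1 + u 2 * v 0 := by
  rw [bil_eq]
  simp [AA]

theorem sym {B : Matrix (Fin 3) (Fin 3) K} (hB : Bᵀ = B) :
    B 1 0 = B 0 1 ∧ B 2 0 = B 0 2 ∧ B 2 1 = B 1 2 := by
  refine ⟨?_, ?_, ?_⟩
  · have := congrFun (congrFun hB 0) 1
    simpa using this
  · have := congrFun (congrFun hB 0) 2
    simpa using this
  · have := congrFun (congrFun hB 1) 2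
    simpa using this

/-- the third equation, by components -/
theorem dif3 (B : Matrix (Fin 3) (Fin 3) K) (x y w w' : K) (z z' : Fin 3 → K)
    (h0 : -B 0 0 * (w' * z 0 + w * z' 0) - B 0 1 * (w' * z 1 + w * z' 1) +
      (x - B 0 2) * (w' * z 2 + w * z' 2) = y * (z 1 * z' 2 - z 2 * z' 1))
    (h1 : -B 1 0 * (w' * z 0 + w * z' 0) + (x - B 1 1) * (w' * z 1 + w * z' 1) -
      B 1 2 * (w' * z 2 + w * z' 2) = y * (z 2 * z' 0 - z 0 * z' 2))
    (h2 : (x - B 2 0) * (w' * z 0 + w * z' 0) - B 2 1 * (w' * z 1 + w * z' 1) -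
      B 2 2 * (w' * z 2 + w * z' 2) = y * (z 0 * z' 1 - z 1 * z' 0)) :
    (x • AA K - B) *ᵥ (w' • z + w • z') = y • crossProduct z z' := by
  ext i
  fin_cases i
  · simp [Matrix.mulVec, dotProduct, Fin.sum_univ_three, AA, cross_apply]
    linear_combination h0
  · simp [Matrix.mulVec, dotProduct, Fin.sum_univ_three, AA, cross_apply]
    linear_combination h1
  · simp [Matrix.mulVec, dotProduct, Fin.sum_univ_three, AA, cross_apply]
    linear_combination h2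

theorem base (hISV : ISVStmt) (hCON : CONStmt) (h2 : (2 : K) ≠ 0)
    (B : Matrix (Fin 3) (Fin 3) K) (w₀ : K) (hB : Bᵀ = B) (hc : Cov B ![1, 0, 0] w₀)
    (hw : w₀ ≠ 0) :
    ∃ Z : Set K, Z.Finite ∧ ∀ x y : K, OnC (ia B) (ib B) (ic B) x y → x ∉ Z →
      ∃ (z : Fin 3 → K) (w : K), Cov B z w ∧ w ≠ 0 ∧ Dif B ![1, 0, 0] w₀ z w x y := by
  obtain ⟨s1, s2, s3⟩ := sym hB
  have h00 : B 0 0 = -w₀ ^ 2 := by
    have := hc.2.2
    rw [bil_eq] at this
    simp at this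
    linear_combination this
  have hS := hCON K h2 B hB (by
    rintro ⟨μ, hμ⟩
    have := congrFun (congrFun hμ 0) 0
    simp [AA] at this
    rw [h00] at this
    apply hw
    simpa using this)
  set S := {s : K | bil B (zz 1 s) (zz 1 s) = 0} with hSdef
  refine ⟨{B 1 1 + B 0 1 ^ 2 / w₀ ^ 2} ∪ {B 0 2} ∪
    (fun σ => B 0 2 + 2 * (w₀ ^ 2 - B 0 1 * σ) / σ ^ 2) '' S,
    ((Set.finite_singleton _).union (Set.finite_singleton _)).union (hS.image _), ?_⟩
  intro x y hxy hx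
  have hx1 : x ≠ B 1 1 + B 0 1 ^ 2 / w₀ ^ 2 := fun h => hx (Or.inl (Or.inl h))
  have hx2 : x ≠ B 0 2 := fun h => hx (Or.inl (Or.inr h))
  have hx3 : ∀ σ ∈ S, x ≠ B 0 2 + 2 * (w₀ ^ 2 - B 0 1 * σ) / σ ^ 2 :=
    fun σ hσ h => hx (Or.inr ⟨σ, hσ, h.symm⟩)
  have hw2 : w₀ ^ 2 ≠ 0 := pow_ne_zero 2 hw
  -- the vector `n`
  obtain ⟨n2, hn2⟩ : ∃ n2 : K, n2 = w₀ ^ 2 * (x - B 1 1) - B 0 1 ^ 2 := ⟨_, rfl⟩
  obtain ⟨n1, hn1⟩ : ∃ n1 : K, n1 = w₀ ^ 2 * B 1 2 - B 0 1 * (x - B 0 2) - w₀ * y := ⟨_, rfl⟩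
  obtain ⟨n0, hn0⟩ : ∃ n0 : K, w₀ ^ 2 * n0 = B 0 1 * n1 - (x - B 0 2) * n2 :=
    ⟨(B 0 1 * n1 - (x - B 0 2) * n2) / w₀ ^ 2, mul_div_cancel₀ _ hw2⟩
  have hn2ne : n2 ≠ 0 := by
    intro h
    apply hx1
    rw [hn2] at h
    field_simp
    linear_combination h
  -- the equation of the curve
  have hcur : (n1 + w₀ * y) ^ 2 + n2 * ((x - B 0 2) ^ 2 + w₀ ^ 2 * B 2 2) = w₀ ^ 2 * y ^ 2 := by
    unfold OnC ia ib ic at hxy
    rw [Matrix.det_fin_three, s1, s2, s3, h00] at hxy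
    rw [hn1, hn2]
    linear_combination (-w₀ ^ 2) * hxy
  -- `M n`
  have r1 : w₀ * (B 0 1 * n0 - (x - B 1 1) * n1 + B 1 2 * n2) = y * n2 := by
    apply mul_left_cancel₀ hw
    linear_combination B 0 1 * hn0 + n1 * hn2 - n2 * hn1
  have r2 : w₀ * ((x - B 0 2) * n0 - B 1 2 * n1 - B 2 2 * n2) = y * n1 := by
    apply mul_left_cancel₀ hw
    linear_combination (x - B 0 2) * hn0 + n1 * hn1 - hcur
  -- the vector `z`
  have hz0 : (![n1 ^ 2, -2 * n1 * n2, -2 * n2 ^ 2] : Fin 3 → K) 0 = n1 ^ 2 := rfl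
  have hz1 : (![n1 ^ 2, -2 * n1 * n2, -2 * n2 ^ 2] : Fin 3 → K) 1 = -2 * n1 * n2 := rfl
  have hz2 : (![n1 ^ 2, -2 * n1 * n2, -2 * n2 ^ 2] : Fin 3 → K) 2 = -2 * n2 ^ 2 := rfl
  have he0 : (![1, 0, 0] : Fin 3 → K) 0 = 1 := rfl
  have he1 : (![1, 0, 0] : Fin 3 → K) 1 = 0 := rfl
  have he2 : (![1, 0, 0] : Fin 3 → K) 2 = 0 := rfl
  refine ⟨![n1 ^ 2, -2 * n1 * n2, -2 * n2 ^ 2], -w₀ * (2 * n0 * n2 + n1 ^ 2), ⟨?_, ?_, ?_⟩, ?_,
    ?_, ?_, ?_⟩
  · intro h
    have := congrFun h 2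
    rw [hz2] at this
    simp only [Pi.zero_apply] at this
    exact (mul_ne_zero (neg_ne_zero.2 h2) (pow_ne_zero 2 hn2ne)) this
  · rw [bilA, hz0, hz1, hz2]
    ring
  · rw [bil_eq, hz0, hz1, hz2, s1, s2, s3, h00]
    apply mul_left_cancel₀ hw
    linear_combination (4 * n2 * w₀ * (n0 * n2 + n1 ^ 2)) * hn0 + 4 * n2 ^ 2 * (n1 * r1 - n2 * r2)
  · refine mul_ne_zero (neg_ne_zero.2 hw) ?_
    intro hA
    -- `n` is isotropic for `A` and `B`
    have hBn : bil B ![n0, n1, n2] ![n0, n1, n2] = 0 := by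
      rw [bil_eq]
      simp only [Matrix.cons_val_zero, Matrix.cons_val_one, Matrix.cons_val]
      rw [s1, s2, s3, h00]
      apply mul_left_cancel₀ hw
      linear_combination (w₀ * x) * hA - (w₀ * n0) * hn0 + n1 * r1 - n2 * r2
    have hAn : bil (AA K) ![n0, n1, n2] ![n0, n1, n2] = 0 := by
      rw [bilA]
      simp only [Matrix.cons_val_zero, Matrix.cons_val_one, Matrix.cons_val]
      linear_combination hA
    have hnne : (![n0, n1, n2] : Fin 3 → K) ≠ 0 := by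
      intro h
      exact hn2ne (by simpa using congrFun h 2)
    obtain ⟨t, r, s, ht, hrs, hn⟩ := (hISV K h2).2.2.1 _ hnne hAn
    have e0 : n0 = t * r ^ 2 := by simpa [zz] using congrFun hn 0
    have e1 : n1 = t * (r * s) := by simpa [zz] using congrFun hn 1
    have e2 : n2 = t * (-(s ^ 2) / 2) := by simpa [zz] using congrFun hn 2
    by_cases hr : r = 0
    · rw [hr] at e0 e1
      apply hx2
      have h3 : (x - B 0 2) * n2 = 0 := by
        rw [e0, e1] at hn0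
        linear_combination hn0
      rcases mul_eq_zero.1 h3 with h3 | h3
      · exact sub_eq_zero.1 h3
      · exact absurd h3 hn2ne
    · have hs : s ≠ 0 := by
        intro hs
        apply hn2ne
        rw [e2, hs]
        ring
      have hz : (![n0, n1, n2] : Fin 3 → K) = (t * r ^ 2) • zz 1 (s / r) := by
        rw [hn]
        ext i
        fin_cases i
        · simp [zz]
        · simp [zz]
          field_simp
        · simp [zz]
          field_simp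
      have hσ : s / r ∈ S := by
        show bil B (zz 1 (s / r)) (zz 1 (s / r)) = 0
        rw [hz] at hBn
        have h4 : bil B ((t * r ^ 2) • zz 1 (s / r)) ((t * r ^ 2) • zz 1 (s / r)) =
            (t * r ^ 2) ^ 2 * bil B (zz 1 (s / r)) (zz 1 (s / r)) := by
          rw [bil_eq, bil_eq]
          simp only [Pi.smul_apply, smul_eq_mul]
          ring
        rw [h4] at hBn
        exact (mul_eq_zero.1 hBn).resolve_left
          (pow_ne_zero 2 (mul_ne_zero ht (pow_ne_zero 2 hr)))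
      apply hx3 _ hσ
      rw [e0, e1, e2] at hn0
      have h5 : t * (2 * w₀ ^ 2 * r ^ 2) = t * (2 * B 0 1 * (r * s) + (x - B 0 2) * s ^ 2) := by
        have h6 : (2:K) * (t * (-(s ^ 2) / 2)) = -t * s ^ 2 := by field_simp
        linear_combination 2 * hn0 - (x - B 0 2) * h6
      have h7 := mul_left_cancel₀ ht h5
      field_simp
      linear_combination -h7
  · rw [bilA, hz0, hz1, hz2, he0, he1, he2]
    simp only [one_mul, zero_mul, add_zero]
    exact mul_ne_zero (neg_ne_zero.2 h2) (pow_ne_zero 2 hn2ne)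
  · rw [bilA, bil_eq, hz0, hz1, hz2, he0, he1, he2, h00]
    linear_combination (-2 * n2) * hn0
  · refine dif3 B x y w₀ _ _ _ ?_ ?_ ?_
    · rw [hz0, hz1, hz2, he0, he1, he2, h00]
      linear_combination (-2 * w₀ * n2) * hn0
    · rw [hz0, hz1, hz2, he0, he1, he2, s1]
      linear_combination (2 * n2) * r1
    · rw [hz0, hz1, hz2, he0, he1, he2, s2, s3]
      linear_combination (-2 * n2) * r2

/-- lower unipotent matrices -/
def uu (s : K) : Matrix (Fin 3) (Fin 3) K := !![1, 0, 0; s, 1, 0; -(s ^ 2) / 2, -s, 1]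

/-- the reflection -/
def jj (K : Type) [Field K] : Matrix (Fin 3) (Fin 3) K := !![0, 0, 1; 0, -1, 0; 1, 0, 0]

theorem uu_iso (h2 : (2 : K) ≠ 0) (s : K) : (uu s)ᵀ * AA K * uu s = AA K := by
  ext i j
  fin_cases i <;> fin_cases j <;> simp [uu, AA, Matrix.mul_apply, Fin.sum_univ_three] <;>
    field_simp <;> ring

theorem uu_det (s : K) : (uu s).det = 1 := by
  rw [Matrix.det_fin_three]
  simp [uu]

theorem jj_iso : (jj K)ᵀ * AA K * jj K = AA K := by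
  ext i j
  fin_cases i <;> fin_cases j <;> simp [jj, AA, Matrix.mul_apply, Fin.sum_univ_three]

theorem jj_det : (jj K).det = 1 := by
  rw [Matrix.det_fin_three]
  simp [jj]

/-- transitivity -/
theorem trans (hISV : ISVStmt) (h2 : (2 : K) ≠ 0) (z : Fin 3 → K) (hz : z ≠ 0)
    (hA : bil (AA K) z z = 0) : ∃ (g : Matrix (Fin 3) (Fin 3) K) (t : K), t ≠ 0 ∧
      gᵀ * AA K * g = AA K ∧ g.det = 1 ∧ z = t • (g *ᵥ ![1, 0, 0]) := by
  obtain ⟨t, r, s, ht, hrs, hn⟩ := (hISV K h2).2.2.1 _ hz hA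
  by_cases hr : r = 0
  · have hs : s ≠ 0 := hrs.resolve_left (not_not.2 hr)
    refine ⟨jj K, t * (-(s ^ 2) / 2), mul_ne_zero ht (div_ne_zero (neg_ne_zero.2
      (pow_ne_zero 2 hs)) h2), jj_iso, jj_det, ?_⟩
    rw [hn, hr]
    ext i
    fin_cases i <;> simp [zz, jj, Matrix.mulVec, dotProduct, Fin.sum_univ_three]
  · refine ⟨uu (s / r), t * r ^ 2, mul_ne_zero ht (pow_ne_zero 2 hr), uu_iso h2 _, uu_det _, ?_⟩
    rw [hn]
    ext i
    fin_cases i
    · simp [zz, uu, Matrix.mulVec, dotProduct, Fin.sum_univ_three]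
    · simp [zz, uu, Matrix.mulVec, dotProduct, Fin.sum_univ_three]
      field_simp
    · simp [zz, uu, Matrix.mulVec, dotProduct, Fin.sum_univ_three]
      field_simp

end TOR

/-- Module TOR. -/
theorem tor_thm (hDEQ : DEQStmt) (hISV : ISVStmt) (hCON : CONStmt) : TORStmt := by
  intro K _ h2 B z₀ w₀ hB hc hw
  obtain ⟨g, t, ht, hg, hdet, hz⟩ := TOR.trans hISV h2 z₀ hc.1 hc.2.1
  obtain ⟨⟨ha, hb, hcc⟩, hcov, hdif, hdifs, hcovs⟩ := hDEQ K B g hB hg
  have hB' : (gᵀ * B * g)ᵀ = gᵀ * B * g := by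
    rw [Matrix.transpose_mul, Matrix.transpose_mul, Matrix.transpose_transpose, hB,
      Matrix.mul_assoc]
  have hw' : w₀ / t ≠ 0 := div_ne_zero hw ht
  have htw : t * (w₀ / t) = w₀ := mul_div_cancel₀ _ ht
  have hc1 : Cov B (g *ᵥ ![1, 0, 0]) (w₀ / t) := by
    rw [← hcovs _ _ t ht, ← hz, htw]
    exact hc
  have hc2 : Cov (gᵀ * B * g) ![1, 0, 0] (w₀ / t) := (hcov _ _).2 hc1
  obtain ⟨Z, hZ, h⟩ := TOR.base hISV hCON h2 _ _ hB' hc2 hw'
  refine ⟨Z, hZ, fun x y hxy hx => ?_⟩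
  rw [ha, hb, hcc] at h
  obtain ⟨z, w, h3, h4, h5⟩ := h x y hxy hx
  refine ⟨g *ᵥ z, w, (hcov _ _).1 h3, h4, ?_⟩
  have h6 := (hdif hdet _ _ _ _ _ _).1 h5
  have h7 := (hdifs _ _ _ _ _ _ t 1 ht one_ne_zero).2 h6
  rw [← hz, htw, one_smul, one_mul] at h7
  exact h7

end Pool.AVS
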